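import Pool.Agent.W734.STS.Stms

/-!
# Project STS (helper734): Sturmian sequences contain no forbidden pattern
-/

set_option autoImplicit false

namespace Pool.Agent.W101.STS

open Pool.Agent.W734.STS

theorem phi_lo : (0.38 : ℝ) < phi := by
  unfold phi
  have : Real.sqrt 5 < 2.24 := by
    rw [Real.sqrt_lt' (by norm_num)]; norm_num
  linarith

theorem phi_hi : phi < (0.383 : ℝ) := by
  unfold phi
  have : (2.235 : ℝ) < Real.sqrt 5 := by
    rw [Real.lt_sqrt (by norm_num)]; norm_num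
  linarith

/-- the conjugate of the golden mean -/
noncomputable def psi : ℝ := (1 - Real.sqrt 5) / 2

theorem psi_sq : psi ^ 2 = phi := by
  unfold psi phi
  have h := Real.sq_sqrt (show (0 : ℝ) ≤ 5 by norm_num)
  nlinarith

theorem psi_rel : psi ^ 2 = psi + 1 := by
  rw [psi_sq]; unfold psi phi; ring

theorem psi_neg : psi < 0 := by
  unfold psi
  have : (2.235 : ℝ) < Real.sqrt 5 := by
    rw [Real.lt_sqrt (by norm_num)]; norm_num
  linarith

theorem psi_lo : (-0.62 : ℝ) < psi := by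
  unfold psi
  have : Real.sqrt 5 < 2.24 := by
    rw [Real.sqrt_lt' (by norm_num)]; norm_num
  linarith

theorem fib_phi (n : ℕ) : (Nat.fib (n + 2) : ℝ) * phi = Nat.fib n + phi * psi ^ n ∧
    (Nat.fib (n + 3) : ℝ) * phi = Nat.fib (n + 1) + phi * psi ^ (n + 1) := by
  induction n with
  | zero =>
    constructor
    · simp
    · have h3 : (Nat.fib (0 + 3) : ℝ) = 2 := by norm_num [Nat.fib]
      have h1 : (Nat.fib (0 + 1) : ℝ) = 1 := by norm_num
      rw [h3, h1]
      have h := psi_rel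
      rw [psi_sq] at h
      have h2 := psi_sq
      have : psi = phi - 1 := by linarith
      rw [this] at h2 ⊢
      linear_combination -h2
  | succ n ih =>
    obtain ⟨h1, h2⟩ := ih
    refine ⟨h2, ?_⟩
    have e1 : (Nat.fib (n + 1 + 3) : ℝ) = Nat.fib (n + 2) + Nat.fib (n + 3) := by
      exact_mod_cast (Nat.fib_add_two : Nat.fib (n + 2 + 2) = _)
    have e2 : (Nat.fib (n + 1 + 1) : ℝ) = Nat.fib n + Nat.fib (n + 1) := by
      exact_mod_cast (Nat.fib_add_two : Nat.fib (n + 2) = _)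
    linear_combination h1 + h2 + phi * e1 - e2 - phi * psi ^ n * psi_rel

theorem fract_of (z r : ℝ) (K : ℤ) (h0 : 0 ≤ r) (h1 : r < 1) (h : z = K + r) : Int.fract z = r := by
  rw [Int.fract_eq_iff]
  exact ⟨h0, h1, K, by rw [h]; ring⟩

theorem s_zero (n : ℤ) : sturm phi n = 0 ↔ Int.fract ((n : ℝ) * phi) < phi := by
  unfold sturm
  split_ifs with h
  · simp [h]
  · simp [h]

theorem s_one (n : ℤ) : sturm phi n = 1 ↔ phi ≤ Int.fract ((n : ℝ) * phi) := by
  unfold sturm
  split_ifs with h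
  · simp [h]
  · simp [not_lt.1 h]

theorem key_add (n d : ℤ) (K : ℤ) (y : ℝ) (hd : (d : ℝ) * phi = K + y) (h1 : phi ≤ y)
    (h2 : phi + y < 1) (h : sturm phi n = 0) : sturm phi (n + d) ≠ 0 := by
  have hp := phi_lo
  rw [s_zero] at h
  intro h'
  rw [s_zero] at h'
  have h0 := Int.fract_nonneg ((n : ℝ) * phi)
  have e : (((n + d : ℤ) : ℝ)) * phi = ((⌊(n : ℝ) * phi⌋ + K : ℤ) : ℝ) +
      (Int.fract ((n : ℝ) * phi) + y) := by
    have := Int.floor_add_fract ((n : ℝ) * phi)
    push_cast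
    linarith
  rw [fract_of _ _ _ (by linarith) (by linarith) e] at h'
  linarith

theorem key_sub (n d : ℤ) (K : ℤ) (y : ℝ) (hd : (d : ℝ) * phi = K - y) (h1 : phi ≤ y)
    (h2 : phi + y < 1) (h : sturm phi n = 0) : sturm phi (n + d) ≠ 0 := by
  have hp := phi_lo
  rw [s_zero] at h
  intro h'
  rw [s_zero] at h'
  have h0 := Int.fract_nonneg ((n : ℝ) * phi)
  have e : (((n + d : ℤ) : ℝ)) * phi = ((⌊(n : ℝ) * phi⌋ + K - 1 : ℤ) : ℝ) +
      (Int.fract ((n : ℝ) * phi) - y + 1) := by
    have := Int.floor_add_fract ((n : ℝ) * phi)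
    push_cast
    linarith
  rw [fract_of _ _ _ (by linarith) (by linarith) e] at h'
  linarith

theorem no00 (n : ℤ) (h : sturm phi n = 0) : sturm phi (n + 1) ≠ 0 := by
  have := phi_hi
  exact key_add n 1 0 phi (by simp) le_rfl (by linarith) h

theorem no111 (n : ℤ) (h0 : sturm phi n = 1) (h1 : sturm phi (n + 1) = 1) :
    sturm phi (n + 2) ≠ 1 := by
  have hlo := phi_lo
  have hhi := phi_hi
  rw [s_one] at h0 h1
  intro h2
  rw [s_one] at h2
  have hf0 := Int.fract_nonneg ((n : ℝ) * phi)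
  have hf1 := Int.fract_lt_one ((n : ℝ) * phi)
  have hfl := Int.floor_add_fract ((n : ℝ) * phi)
  by_cases hx : 1 - phi ≤ Int.fract ((n : ℝ) * phi)
  · have e : (((n + 1 : ℤ) : ℝ)) * phi = ((⌊(n : ℝ) * phi⌋ + 1 : ℤ) : ℝ) +
        (Int.fract ((n : ℝ) * phi) + phi - 1) := by
      push_cast
      linarith
    rw [fract_of _ _ _ (by linarith) (by linarith) e] at h1
    linarith
  · push Not at hx
    have e : (((n + 2 : ℤ) : ℝ)) * phi = ((⌊(n : ℝ) * phi⌋ + 1 : ℤ) : ℝ) +
        (Int.fract ((n : ℝ) * phi) + 2 * phi - 1) := by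
      push_cast
      linarith
    rw [fract_of _ _ _ (by linarith) (by linarith) e] at h2
    linarith

theorem noD (i : ℕ) (hi : 1 ≤ i) (n : ℤ) (h : sturm phi n = 0) :
    sturm phi (n + (D i : ℤ)) ≠ 0 := by
  have hlo := phi_lo
  have hhi := phi_hi
  have hp0 : 0 < phi := by linarith
  have hn := psi_neg
  have hl := psi_lo
  have hfib := (fib_phi (i + 2)).1
  rcases Nat.even_or_odd' i with ⟨k, hk | hk⟩
  · have hk1 : 1 ≤ k := by omega
    have hD : D i = Nat.fib (i + 4) + 1 := by unfold D; rw [if_pos (by omega)]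
    have hpow : psi ^ (i + 2) = phi ^ (k + 1) := by
      rw [← psi_sq, ← pow_mul]; congr 1; omega
    have hd0 : 0 < phi ^ (k + 1) := pow_pos hp0 _
    have hd1 : phi ^ (k + 1) ≤ phi := by
      calc phi ^ (k + 1) ≤ phi ^ 1 := pow_le_pow_of_le_one hp0.le (by linarith) (by omega)
        _ = phi := pow_one _
    refine key_add n (D i : ℤ) (Nat.fib (i + 2) : ℤ) (phi * (1 + phi ^ (k + 1))) ?_ ?_ ?_ h
    · rw [hD]
      push_cast
      rw [add_mul, hfib, hpow]
      ring
    · nlinarith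
    · nlinarith
  · have hD : D i = Nat.fib (i + 4) - 1 := by unfold D; rw [if_neg (by omega)]
    have hpos : 1 ≤ Nat.fib (i + 4) := Nat.fib_pos.2 (by omega)
    have hpow : psi ^ (i + 2) = psi * phi ^ (k + 1) := by
      rw [← psi_sq, ← pow_mul, ← pow_succ']; congr 1; omega
    have hd0 : 0 < phi ^ (k + 1) := pow_pos hp0 _
    have hd1 : phi ^ (k + 1) ≤ phi := by
      calc phi ^ (k + 1) ≤ phi ^ 1 := pow_le_pow_of_le_one hp0.le (by linarith) (by omega)
        _ = phi := pow_one _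
    have hd2 : 0 < -psi * phi ^ (k + 1) := mul_pos (by linarith) hd0
    have hd3 : -psi * phi ^ (k + 1) ≤ 0.62 * 0.383 := by
      apply mul_le_mul (by linarith) (by linarith) hd0.le (by norm_num)
    refine key_sub n (D i : ℤ) (Nat.fib (i + 2) : ℤ) (phi * (1 + -psi * phi ^ (k + 1))) ?_ ?_ ?_ h
    · rw [hD, Nat.cast_sub hpos]
      push_cast
      rw [sub_mul, hfib, hpow]
      ring
    · nlinarith
    · nlinarith

theorem wrd_get (X : Cf) (a : ℤ) (N t : ℕ) (x : Fin 2) (h : (wrd X a N)[t]? = some x) :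
    X (a + t) = x := by
  unfold wrd at h
  rw [List.getElem?_map, Option.map_eq_some_iff] at h
  obtain ⟨s, hs, rfl⟩ := h
  rw [List.getElem?_eq_some_iff] at hs
  obtain ⟨_, hs⟩ := hs
  rw [List.getElem_range] at hs
  rw [hs]

theorem G_sturm (b : ℤ) (N : ℕ) : G (wrd (sturm phi) b N) = 0 := by
  have hV : ∀ d : ℕ, (∀ n : ℤ, sturm phi n = 0 → sturm phi (n + (d : ℤ)) ≠ 0) →
      V d (wrd (sturm phi) b N) = 0 := by
    intro d hd
    unfold V
    rw [Finset.card_eq_zero, Finset.filter_eq_empty_iff]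
    rintro t _ ⟨h1, h2⟩
    have e1 := wrd_get _ _ _ _ _ h1
    have e2 := wrd_get _ _ _ _ _ h2
    refine hd _ e1 ?_
    rw [← e2]
    congr 1
    push_cast
    ring
  have hT : T (wrd (sturm phi) b N) = 0 := by
    unfold T
    rw [Finset.card_eq_zero, Finset.filter_eq_empty_iff]
    rintro t _ ⟨h1, h2, h3⟩
    have e1 := wrd_get _ _ _ _ _ h1
    have e2 := wrd_get _ _ _ _ _ h2
    have e3 := wrd_get _ _ _ _ _ h3
    refine no111 _ e1 ?_ ?_
    · rw [← e2]
      congr 1
      push_cast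
      ring
    · rw [← e3]
      congr 1
      push_cast
      ring
  unfold G
  rw [hT, hV 1 (fun n h => by simpa using no00 n h)]
  simp only [Nat.cast_zero, add_zero, zero_add]
  apply Finset.sum_eq_zero
  intro i hi
  rw [hV (D i) (fun n h => noD i (Finset.mem_Icc.1 hi).1 n h)]
  simp

theorem zero : S_ZERO := by
  intro X hX a N
  have hopen : IsOpen {Y : Cf | ∀ t ∈ Finset.range N, Y (a + (t : ℤ)) = X (a + (t : ℤ))} := by
    have : {Y : Cf | ∀ t ∈ Finset.range N, Y (a + (t : ℤ)) = X (a + (t : ℤ))} =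
        ⋂ t ∈ Finset.range N, {Y : Cf | Y (a + (t : ℤ)) = X (a + (t : ℤ))} := by
      ext Y
      simp
    rw [this]
    refine isOpen_biInter_finset fun t _ => ?_
    have hc : Continuous (fun Y : Cf => Y (a + (t : ℤ))) := continuous_apply _
    exact (isOpen_discrete ({X (a + (t : ℤ))} : Set (Fin 2))).preimage hc
  obtain ⟨Y, hY1, c, rfl⟩ := mem_closure_iff.1 hX _ hopen (fun t _ => rfl)
  have e : wrd X a N = wrd (sturm phi) (a - c) N := by
    unfold wrd
    apply List.map_congr_left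
    intro t ht
    have h := hY1 t (by simpa using ht)
    unfold shift at h
    rw [← h]
    congr 1
    ring
  rw [e]
  exact G_sturm _ _

theorem irr : Irrational phi ∧ 0 < phi ∧ phi < 1 := by
  refine ⟨?_, by linarith [phi_lo], by linarith [phi_hi]⟩
  have h5 : Irrational (Real.sqrt 5) := by
    have := Nat.Prime.irrational_sqrt (show Nat.Prime 5 by norm_num)
    simpa using this
  unfold phi
  have h1 : Irrational ((3 : ℕ) - Real.sqrt 5) := h5.natCast_sub 3
  have h2 := h1.div_natCast (m := 2) (by norm_num)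
  simpa using h2

end Pool.Agent.W101.STS
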